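import Mathlib

set_option autoImplicit false

/-!
Small transversals from local transversals: `f_r(k,s)`.
-/

namespace Pool.Agent.H161R5

open Finset

/-- `T` meets every edge of `F`. -/
def Trans {V : Type} (F : Finset (Finset V)) (T : Finset V) : Prop := ∀ e ∈ F, ∃ v ∈ e, v ∈ T

/-- every subfamily of at most `k` edges has a transversal of at most `s` vertices -/
def LocalProp {V : Type} (H : Finset (Finset V)) (k s : ℕ) : Prop :=
  ∀ F ⊆ H, F.card ≤ k → ∃ T : Finset V, T.card ≤ s ∧ Trans F T

/-- `H` is an `r`-graph -/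
def Uniform {V : Type} (H : Finset (Finset V)) (r : ℕ) : Prop := ∀ e ∈ H, e.card = r

/-- `f` is an upper bound for the transversal numbers of all `r`-graphs with the local property -/
def Bound (r k s f : ℕ) : Prop :=
  ∀ (V : Type) (H : Finset (Finset V)), Uniform H r → LocalProp H k s →
    ∃ T : Finset V, T.card ≤ f ∧ Trans H T

/-- `f_r(k,s)` -/
noncomputable def fval (r k s : ℕ) : ℕ := sInf {f : ℕ | Bound r k s f}

lemma bound_one (r k : ℕ) (hr : 1 ≤ r) (hk : 2 ≤ k) : Bound r k 1 ((r - 1) / (k - 1) + 1) := by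
  classical
  intro V H hU hL
  by_contra hcon
  push Not at hcon
  set t := (r - 1) / (k - 1) + 1 with ht
  by_cases hH : H = ∅
  · exact hcon ∅ (by simp) (by rw [hH]; intro e he; simp at he)
  obtain ⟨e0, he0⟩ := Finset.nonempty_iff_ne_empty.mpr hH
  have key : ∀ j, ∃ F ⊆ H, e0 ∈ F ∧ F.card ≤ j + 1 ∧ ∃ I : Finset V, I.card ≤ r - j * t ∧
      ∀ v, (∀ e ∈ F, v ∈ e) → v ∈ I := by
    intro j
    induction j with
    | zero =>
      refine ⟨{e0}, by simpa using he0, by simp, by simp, e0, by simp [hU e0 he0], ?_⟩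
      intro v hv
      exact hv e0 (by simp)
    | succ j ih =>
      obtain ⟨F, hF, he, hc, I, hI, hIv⟩ := ih
      by_cases hIt : I.card ≤ t
      · have hnt := hcon I hIt
        unfold Trans at hnt
        push Not at hnt
        obtain ⟨e, heH, hdis⟩ := hnt
        refine ⟨insert e F, ?_, by simp [he], ?_, ∅, by simp, ?_⟩
        · intro x hx
          rw [Finset.mem_insert] at hx
          rcases hx with rfl | hx
          · exact heH
          · exact hF hx
        · exact (Finset.card_insert_le _ _).trans (by omega)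
        · intro v hv
          exfalso
          exact hdis v (hv e (by simp)) (hIv v (fun e' he' => hv e' (by simp [he'])))
      · push Not at hIt
        obtain ⟨S, hSI, hSc⟩ := Finset.exists_subset_card_eq hIt.le
        have hnt := hcon S hSc.le
        unfold Trans at hnt
        push Not at hnt
        obtain ⟨e, heH, hdis⟩ := hnt
        refine ⟨insert e F, ?_, by simp [he], ?_, I \ S, ?_, ?_⟩
        · intro x hx
          rw [Finset.mem_insert] at hx
          rcases hx with rfl | hx
          · exact heH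
          · exact hF hx
        · exact (Finset.card_insert_le _ _).trans (by omega)
        · rw [Finset.card_sdiff_of_subset hSI, hSc, add_mul, one_mul]
          omega
        · intro v hv
          rw [Finset.mem_sdiff]
          exact ⟨hIv v (fun e' he' => hv e' (by simp [he'])), hdis v (hv e (by simp))⟩
  obtain ⟨F, hF, he, hc, I, hI, hIv⟩ := key (k - 1)
  obtain ⟨T, hT, hTF⟩ := hL F hF (by omega)
  obtain ⟨v, hv, hvT⟩ := hTF e0 he
  have hTv : ∀ w ∈ T, w = v := by
    intro w hw
    exact Finset.card_le_one.mp hT w hw v hvT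
  have hvI : v ∈ I := by
    apply hIv
    intro e he'
    obtain ⟨w, hw, hwT⟩ := hTF e he'
    rw [← hTv w hwT]
    exact hw
  have h1 : 1 ≤ I.card := Finset.card_pos.mpr ⟨v, hvI⟩
  have h2 : (k - 1) * t ≤ r - 1 := by omega
  have h3 : r - 1 < (k - 1) * t := by
    rw [ht]
    exact Nat.lt_mul_div_succ (r - 1) (by omega)
  omega

lemma bound_step (r k s f : ℕ) (h : Bound r k s f) : Bound r (k + 1) (s + 1) (f + r) := by
  classical
  intro V H hU hL
  by_cases hH : H = ∅
  · exact ⟨∅, by simp, by rw [hH]; intro e he; simp at he⟩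
  obtain ⟨e0, he0⟩ := Finset.nonempty_iff_ne_empty.mpr hH
  obtain ⟨T, hT, hTH⟩ := h V (H.filter (fun e => Disjoint e e0))
    (fun e he => hU e (Finset.mem_filter.mp he).1) (by
      intro F hF hc
      obtain ⟨T, hT, hTF⟩ := hL (insert e0 F) (by
        intro x hx
        rw [Finset.mem_insert] at hx
        rcases hx with rfl | hx
        · exact he0
        · exact (Finset.mem_filter.mp (hF hx)).1) ((Finset.card_insert_le _ _).trans (by omega))
      obtain ⟨v, hv, hvT⟩ := hTF e0 (by simp)
      refine ⟨T.erase v, ?_, ?_⟩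
      · rw [Finset.card_erase_of_mem hvT]; omega
      · intro e he
        obtain ⟨w, hw, hwT⟩ := hTF e (by simp [he])
        refine ⟨w, hw, Finset.mem_erase.mpr ⟨?_, hwT⟩⟩
        rintro rfl
        exact Finset.disjoint_left.mp (Finset.mem_filter.mp (hF he)).2 hw hv)
  refine ⟨T ∪ e0, (Finset.card_union_le _ _).trans (by rw [hU e0 he0]; omega), ?_⟩
  intro e he
  by_cases hd : Disjoint e e0
  · obtain ⟨w, hw, hwT⟩ := hTH e (Finset.mem_filter.mpr ⟨he, hd⟩)
    exact ⟨w, hw, Finset.mem_union_left _ hwT⟩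
  · rw [Finset.not_disjoint_iff] at hd
    obtain ⟨w, hw, hw0⟩ := hd
    exact ⟨w, hw, Finset.mem_union_right _ hw0⟩

/-- general upper bound -/
theorem bound_general (r s j : ℕ) (hr : 1 ≤ r) (hj : 1 ≤ j) :
    Bound r (s + 1 + j) (s + 1) (s * r + (r - 1) / j + 1) := by
  induction s with
  | zero =>
    have := bound_one r (1 + j) hr (by omega)
    simpa using this
  | succ s ih =>
    have := bound_step _ _ _ _ ih
    convert this using 1 <;> ring

/-- covering with one vertex for each edge -/
lemma cover_one {V : Type} [DecidableEq V] (F : Finset (Finset V)) (hne : ∀ e ∈ F, e.Nonempty) :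
    ∃ T : Finset V, T.card ≤ F.card ∧ Trans F T := by
  classical
  choose g hg using hne
  refine ⟨F.attach.image (fun e => g e.1 e.2), ?_, ?_⟩
  · exact Finset.card_image_le.trans (by simp)
  · intro e he
    exact ⟨g e he, hg e he, Finset.mem_image.mpr ⟨⟨e, he⟩, Finset.mem_attach _ _, rfl⟩⟩

lemma cover_rest {V : Type} [DecidableEq V] (F F0 : Finset (Finset V)) (T0 : Finset V)
    (hne : ∀ e ∈ F, e.Nonempty) (h0 : Trans F0 T0) :
    ∃ T : Finset V, T.card ≤ T0.card + (F \ F0).card ∧ Trans F T := by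
  classical
  obtain ⟨T1, hT1, hT1c⟩ := cover_one (F \ F0) (fun e he => hne e (Finset.mem_sdiff.mp he).1)
  refine ⟨T0 ∪ T1, (Finset.card_union_le _ _).trans (by omega), ?_⟩
  intro e he
  by_cases hF0 : e ∈ F0
  · obtain ⟨w, hw, hwT⟩ := h0 e hF0
    exact ⟨w, hw, Finset.mem_union_left _ hwT⟩
  · obtain ⟨w, hw, hwT⟩ := hT1c e (Finset.mem_sdiff.mpr ⟨he, hF0⟩)
    exact ⟨w, hw, Finset.mem_union_right _ hwT⟩

lemma deg_sum {n r : ℕ} (F : Finset (Finset (Fin n))) (hU : Uniform F r) :
    ∑ v : Fin n, (F.filter (fun e => v ∈ e)).card = F.card * r := by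
  classical
  simp_rw [Finset.card_filter]
  rw [Finset.sum_comm]
  have : ∀ e ∈ F, ∑ v : Fin n, (if v ∈ e then 1 else 0) = r := by
    intro e he
    rw [← hU e he, ← Finset.card_filter]
    congr 1
    ext v
    simp
  rw [Finset.sum_congr rfl this]
  simp

/-- the complete `r`-graph on few vertices has the local property, `k = s + 1` -/
lemma local_one {n r s : ℕ} (hr : 1 ≤ r) (hn : n < (s + 1) * r) (F : Finset (Finset (Fin n)))
    (hU : Uniform F r) (hc : F.card ≤ s + 1) (hs : 1 ≤ s) :
    ∃ T : Finset (Fin n), T.card ≤ s ∧ Trans F T := by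
  classical
  have hne : ∀ e ∈ F, e.Nonempty := fun e he => Finset.card_pos.mp (by rw [hU e he]; omega)
  by_cases hcs : F.card ≤ s
  · obtain ⟨T, hT, hTF⟩ := cover_one F hne
    exact ⟨T, hT.trans hcs, hTF⟩
  have hcard : F.card = s + 1 := by omega
  have hex : ∃ v, 2 ≤ (F.filter (fun e => v ∈ e)).card := by
    by_contra hcon
    push Not at hcon
    have h1 := deg_sum F hU
    have h2 : ∑ v : Fin n, (F.filter (fun e => v ∈ e)).card ≤ ∑ v : Fin n, 1 :=
      Finset.sum_le_sum (fun v _ => by have := hcon v; omega)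
    simp at h2
    rw [hcard] at h1
    omega
  obtain ⟨v, hv⟩ := hex
  obtain ⟨T, hT, hTF⟩ := cover_rest F (F.filter (fun e => v ∈ e)) {v} hne
    (fun e he => ⟨v, (Finset.mem_filter.mp he).2, by simp⟩)
  refine ⟨T, hT.trans ?_, hTF⟩
  rw [Finset.card_sdiff_of_subset (Finset.filter_subset _ _)]
  simp
  omega

/-- the complete `r`-graph on few vertices has the local property, `k = s + 2` -/
lemma local_two {n r s : ℕ} (hr : 1 ≤ r) (hn : 2 * n < (2 * s + 1) * r)
    (F : Finset (Finset (Fin n))) (hU : Uniform F r) (hc : F.card ≤ s + 2) (hs : 1 ≤ s) :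
    ∃ T : Finset (Fin n), T.card ≤ s ∧ Trans F T := by
  classical
  have hne : ∀ e ∈ F, e.Nonempty := fun e he => Finset.card_pos.mp (by rw [hU e he]; omega)
  by_cases hcs : F.card ≤ s + 1
  · apply local_one hr ?_ F hU hcs hs
    nlinarith
  have hcard : F.card = s + 2 := by omega
  by_cases h3 : ∃ v, 3 ≤ (F.filter (fun e => v ∈ e)).card
  · obtain ⟨v, hv⟩ := h3
    obtain ⟨T, hT, hTF⟩ := cover_rest F (F.filter (fun e => v ∈ e)) {v} hne
      (fun e he => ⟨v, (Finset.mem_filter.mp he).2, by simp⟩)
    refine ⟨T, hT.trans ?_, hTF⟩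
    rw [Finset.card_sdiff_of_subset (Finset.filter_subset _ _)]
    simp
    omega
  push Not at h3
  let W : Finset (Fin n) := Finset.univ.filter (fun v => (F.filter (fun e => v ∈ e)).card = 2)
  have hW : 3 * r < 2 * W.card := by
    have h1 := deg_sum F hU
    have h2 : ∑ v : Fin n, (F.filter (fun e => v ∈ e)).card ≤
        ∑ v : Fin n, (1 + if v ∈ W then 1 else 0) := by
      apply Finset.sum_le_sum
      intro v _
      by_cases hv : v ∈ W
      · have := (Finset.mem_filter.mp hv).2
        simp [hv, this]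
      · have h4 := h3 v
        have h5 : (F.filter (fun e => v ∈ e)).card ≠ 2 := by
          intro h6
          exact hv (Finset.mem_filter.mpr ⟨Finset.mem_univ _, h6⟩)
        simp only [hv, if_false]
        omega
    rw [Finset.sum_add_distrib] at h2
    simp only [Finset.sum_const, Finset.card_univ, Fintype.card_fin, smul_eq_mul, mul_one,
      Finset.sum_ite_mem, Finset.univ_inter] at h2
    rw [h1, hcard] at h2
    nlinarith
  by_cases hd : ∃ v ∈ W, ∃ w ∈ W, Disjoint (F.filter (fun e => v ∈ e)) (F.filter (fun e => w ∈ e))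
  · obtain ⟨v, hv, w, hw, hvw⟩ := hd
    obtain ⟨T, hT, hTF⟩ := cover_rest F
      ((F.filter (fun e => v ∈ e)) ∪ (F.filter (fun e => w ∈ e))) {v, w} hne (by
        intro e he
        rw [Finset.mem_union, Finset.mem_filter, Finset.mem_filter] at he
        rcases he with he | he
        · exact ⟨v, he.2, by simp⟩
        · exact ⟨w, he.2, by simp⟩)
    refine ⟨T, hT.trans ?_, hTF⟩
    have h1 : ({v, w} : Finset (Fin n)).card ≤ 2 := Finset.card_le_two
    have h2 : ((F.filter (fun e => v ∈ e)) ∪ (F.filter (fun e => w ∈ e))).card = 4 := by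
      rw [Finset.card_union_of_disjoint hvw, (Finset.mem_filter.mp hv).2,
        (Finset.mem_filter.mp hw).2]
    rw [Finset.card_sdiff_of_subset (Finset.union_subset (Finset.filter_subset _ _)
      (Finset.filter_subset _ _)), h2]
    have h3 : 4 ≤ F.card := by
      rw [← h2]
      exact Finset.card_le_card (Finset.union_subset (Finset.filter_subset _ _)
        (Finset.filter_subset _ _))
    omega
  · exfalso
    push Not at hd
    have hmeet : ∀ v ∈ W, ∀ w ∈ W, ∃ e ∈ F, v ∈ e ∧ w ∈ e := by
      intro v hv w hw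
      have := hd v hv w hw
      rw [Finset.not_disjoint_iff] at this
      obtain ⟨e, he1, he2⟩ := this
      rw [Finset.mem_filter] at he1 he2
      exact ⟨e, he1.1, he1.2, he2.2⟩
    have hWne : W.Nonempty := Finset.card_pos.mp (by omega)
    obtain ⟨v0, hv0⟩ := hWne
    obtain ⟨a, b, hab, hFab⟩ := Finset.card_eq_two.mp (Finset.mem_filter.mp hv0).2
    have haF : a ∈ F ∧ v0 ∈ a := by
      have : a ∈ F.filter (fun e => v0 ∈ e) := by rw [hFab]; simp
      exact Finset.mem_filter.mp this
    have hbF : b ∈ F ∧ v0 ∈ b := by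
      have : b ∈ F.filter (fun e => v0 ∈ e) := by rw [hFab]; simp
      exact Finset.mem_filter.mp this
    have hnotin : ∀ x ∈ F, ∃ v ∈ W, v ∉ x := by
      intro x hx
      by_contra hcon
      push Not at hcon
      have : W.card ≤ x.card := Finset.card_le_card (fun v hv => hcon v hv)
      rw [hU x hx] at this
      omega
    obtain ⟨v1, hv1, hv1a⟩ := hnotin a haF.1
    obtain ⟨v2, hv2, hv2b⟩ := hnotin b hbF.1
    have hin : ∀ v ∈ W, v ∈ a ∨ v ∈ b := by
      intro v hv
      obtain ⟨e, he, h1, h2⟩ := hmeet v0 hv0 v hv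
      have : e ∈ F.filter (fun e => v0 ∈ e) := Finset.mem_filter.mpr ⟨he, h1⟩
      rw [hFab, Finset.mem_insert, Finset.mem_singleton] at this
      rcases this with rfl | rfl
      · exact Or.inl h2
      · exact Or.inr h2
    have hv1b : v1 ∈ b := (hin v1 hv1).resolve_left hv1a
    have hv2a : v2 ∈ a := (hin v2 hv2).resolve_right hv2b
    obtain ⟨c, hcF, hv1c, hv2c⟩ := hmeet v1 hv1 v2 hv2
    have hca : c ≠ a := by rintro rfl; exact hv1a hv1c
    have hcb : c ≠ b := by rintro rfl; exact hv2b hv2c
    have hF1 : F.filter (fun e => v1 ∈ e) = {b, c} := by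
      symm
      apply Finset.eq_of_subset_of_card_le
      · intro x hx
        rw [Finset.mem_insert, Finset.mem_singleton] at hx
        rcases hx with rfl | rfl
        · exact Finset.mem_filter.mpr ⟨hbF.1, hv1b⟩
        · exact Finset.mem_filter.mpr ⟨hcF, hv1c⟩
      · rw [(Finset.mem_filter.mp hv1).2, Finset.card_pair hcb.symm]
    have hF2 : F.filter (fun e => v2 ∈ e) = {a, c} := by
      symm
      apply Finset.eq_of_subset_of_card_le
      · intro x hx
        rw [Finset.mem_insert, Finset.mem_singleton] at hx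
        rcases hx with rfl | rfl
        · exact Finset.mem_filter.mpr ⟨haF.1, hv2a⟩
        · exact Finset.mem_filter.mpr ⟨hcF, hv2c⟩
      · rw [(Finset.mem_filter.mp hv2).2, Finset.card_pair hca.symm]
    have hin1 : ∀ v ∈ W, v ∈ b ∨ v ∈ c := by
      intro v hv
      obtain ⟨e, he, h1, h2⟩ := hmeet v1 hv1 v hv
      have : e ∈ F.filter (fun e => v1 ∈ e) := Finset.mem_filter.mpr ⟨he, h1⟩
      rw [hF1, Finset.mem_insert, Finset.mem_singleton] at this
      rcases this with rfl | rfl
      · exact Or.inl h2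
      · exact Or.inr h2
    have hin2 : ∀ v ∈ W, v ∈ a ∨ v ∈ c := by
      intro v hv
      obtain ⟨e, he, h1, h2⟩ := hmeet v2 hv2 v hv
      have : e ∈ F.filter (fun e => v2 ∈ e) := Finset.mem_filter.mpr ⟨he, h1⟩
      rw [hF2, Finset.mem_insert, Finset.mem_singleton] at this
      rcases this with rfl | rfl
      · exact Or.inl h2
      · exact Or.inr h2
    have hsum : 2 * W.card ≤ (W ∩ a).card + (W ∩ b).card + (W ∩ c).card := by
      have h1 : ∑ v ∈ W, 2 ≤ ∑ v ∈ W, ((if v ∈ a then 1 else 0) + (if v ∈ b then 1 else 0) +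
          (if v ∈ c then 1 else 0)) := by
        apply Finset.sum_le_sum
        intro v hv
        have ha := hin v hv
        have hb := hin1 v hv
        have hc' := hin2 v hv
        by_cases h1 : v ∈ a <;> by_cases h2 : v ∈ b <;> by_cases h3 : v ∈ c <;>
          simp_all
      simp only [Finset.sum_add_distrib, Finset.sum_ite_mem, Finset.sum_const, smul_eq_mul,
        mul_one] at h1
      omega
    have ha' : (W ∩ a).card ≤ r := by
      rw [← hU a haF.1]; exact Finset.card_le_card Finset.inter_subset_right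
    have hb' : (W ∩ b).card ≤ r := by
      rw [← hU b hbF.1]; exact Finset.card_le_card Finset.inter_subset_right
    have hc' : (W ∩ c).card ≤ r := by
      rw [← hU c hcF]; exact Finset.card_le_card Finset.inter_subset_right
    omega

/-- lower bound from a complete `r`-graph -/
lemma lower_of_local {r k s n f : ℕ} (hr : 1 ≤ r) (hrn : r ≤ n)
    (hloc : ∀ F : Finset (Finset (Fin n)), Uniform F r → F.card ≤ k →
      ∃ T : Finset (Fin n), T.card ≤ s ∧ Trans F T) (hf : Bound r k s f) : n + 1 ≤ f + r := by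
  classical
  have hU : Uniform (Finset.powersetCard r (Finset.univ : Finset (Fin n))) r :=
    fun e he => (Finset.mem_powersetCard.mp he).2
  obtain ⟨T, hT, hTr⟩ := hf (Fin n) (Finset.powersetCard r Finset.univ) hU
    (fun F hF hc => hloc F (fun e he => hU e (hF he)) hc)
  by_contra hcon
  push Not at hcon
  have h1 : r ≤ (Finset.univ \ T).card := by
    rw [Finset.card_sdiff_of_subset (Finset.subset_univ _), Finset.card_univ, Fintype.card_fin]
    omega
  obtain ⟨S, hS, hSc⟩ := Finset.exists_subset_card_eq h1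
  obtain ⟨v, hv, hvT⟩ := hTr S (Finset.mem_powersetCard.mpr ⟨Finset.subset_univ _, hSc⟩)
  exact (Finset.mem_sdiff.mp (hS hv)).2 hvT

/-- `f_r(s+1,s) = r s` -/
theorem value_one (r s : ℕ) (hr : 1 ≤ r) (hs : 1 ≤ s) : fval r (s + 1) s = s * r := by
  obtain ⟨s', rfl⟩ : ∃ s', s = s' + 1 := ⟨s - 1, by omega⟩
  have hup : Bound r (s' + 1 + 1) (s' + 1) ((s' + 1) * r) := by
    have := bound_general r s' 1 hr le_rfl
    convert this using 1
    rw [Nat.div_one, add_mul]
    omega
  apply le_antisymm
  · exact Nat.sInf_le hup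
  · have hmem : Bound r (s' + 1 + 1) (s' + 1) (fval r (s' + 1 + 1) (s' + 1)) :=
      Nat.sInf_mem (s := {f : ℕ | Bound r (s' + 1 + 1) (s' + 1) f}) ⟨_, hup⟩
    have h1 : 1 * r ≤ (s' + 1) * r := Nat.mul_le_mul_right r (by omega)
    have h2 : (s' + 1 + 1) * r = (s' + 1) * r + r := by ring
    have := lower_of_local (n := (s' + 1 + 1) * r - 1) hr (by omega)
      (fun F hU hc => local_one hr (by omega) F hU hc (by omega)) hmem
    omega

/-- `f_r(s+2,s) = ⌈(2s-1) r / 2⌉` -/
theorem value_two (r s : ℕ) (hr : 1 ≤ r) (hs : 1 ≤ s) :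
    fval r (s + 2) s = ((2 * s - 1) * r + 1) / 2 := by
  obtain ⟨s', rfl⟩ : ∃ s', s = s' + 1 := ⟨s - 1, by omega⟩
  have e1 : (2 * (s' + 1) - 1) * r = 2 * (s' * r) + r := by
    rw [show 2 * (s' + 1) - 1 = 2 * s' + 1 by omega]; ring
  have hup : Bound r (s' + 1 + 2) (s' + 1) (((2 * (s' + 1) - 1) * r + 1) / 2) := by
    have := bound_general r s' 2 hr (by norm_num)
    convert this using 1
    rw [e1]
    omega
  apply le_antisymm
  · exact Nat.sInf_le hup
  · have hmem : Bound r (s' + 1 + 2) (s' + 1) (fval r (s' + 1 + 2) (s' + 1)) :=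
      Nat.sInf_mem (s := {f : ℕ | Bound r (s' + 1 + 2) (s' + 1) f}) ⟨_, hup⟩
    have e2 : (2 * (s' + 1) + 1) * r = 2 * (s' * r) + 3 * r := by ring
    have := lower_of_local (n := ((2 * (s' + 1) + 1) * r + 1) / 2 - 1) hr (by rw [e2]; omega)
      (fun F hU hc => local_two hr (by rw [e2]; omega) F hU hc (by omega)) hmem
    rw [e2] at this
    rw [e1]
    omega

theorem upper_general (r k s : ℕ) (hr : 1 ≤ r) (hs : 1 ≤ s) (hk : s < k) :
    fval r k s ≤ (s - 1) * r + (r - 1) / (k - s) + 1 := by
  apply Nat.sInf_le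
  have := bound_general r (s - 1) (k - s) hr (by omega)
  rw [show s - 1 + 1 = s by omega, show s + (k - s) = k by omega] at this
  exact this

theorem recursion (r k s : ℕ) (hr : 1 ≤ r) (hs : 1 ≤ s) (hk : s < k) :
    fval r (k + 1) (s + 1) ≤ fval r k s + r := by
  apply Nat.sInf_le
  apply bound_step
  have := bound_general r (s - 1) (k - s) hr (by omega)
  rw [show s - 1 + 1 = s by omega, show s + (k - s) = k by omega] at this
  exact Nat.sInf_mem (s := {f : ℕ | Bound r k s f}) ⟨_, this⟩

end Pool.Agent.H161R5
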